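import Mathlib
import Pool.Agent.NCLp.Defs
import Pool.Agent.NCLp.BaseExists
import Pool.Agent.NCLp.Real4
import Pool.Agent.Helper86.NC.Assemble

/-!
# Spectral bound and growth bound for eventually positive semigroups on noncommutative `L^p`

We answer Q1 (Chill) of MP_25d1d3_an in the negative: there are a von Neumann algebra `M` with a
normal semi-finite faithful trace `τ` and an individually eventually positive `C₀`-semigroup on
`L^{4/3}(M, τ)` whose generator `A` satisfies `s(A) ≤ 0 < log 2 ≤ ω₀(A)`.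

The definitions used in the statement (`NCLp.NSFTrace`, `NCLp.absPow`, `NCLp.NSFTrace.finElts`,
`NCLp.IsLp`, `NCLp.posCone`, `NCLp.C0Semigroup`, `IsGen`, `resolventSet`, `spectralBound`,
`growthBound`, `IndEvPos`) are all in `Pool/Agent/NCLp/Defs.lean`.
-/

set_option autoImplicit false

open Filter Topology
open scoped ENNReal NNReal InnerProductSpace
open NCLp

namespace Pool.Agent.Results.MP_25d1d3_an.Disproof

/-- **Disproof of Q1.** There exist a (complex) Hilbert space `H`, a von Neumann algebra `M` on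
`H`, a normal semi-finite faithful trace `τ` on `M`, and, with `E = L^{4/3}(M, τ)` (the Banach
space completion, through `ι`, of `{x ∈ M : τ(|x|^{4/3}) < ∞}`), a `C₀`-semigroup `S` on `E`
which is individually eventually positive, whose generator has spectral bound `≤ 0`, and whose
growth bound is `≥ log 2`. -/
theorem result :
    ∃ (H : Type) (_ : NormedAddCommGroup H) (_ : InnerProductSpace ℂ H) (_ : CompleteSpace H)
      (M : VonNeumannAlgebra H) (τ : NSFTrace M)
      (E : Type) (_ : NormedAddCommGroup E) (_ : NormedSpace ℂ E) (_ : CompleteSpace E)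
      (ι : (H →L[ℂ] H) → E) (S : C0Semigroup E),
      IsLp τ (4 / 3) E ι ∧ S.IndEvPos (posCone τ (4 / 3) ι) ∧
        S.spectralBound ≤ 0 ∧ ((Real.log 2 : ℝ) : EReal) ≤ S.growthBound ∧
        S.spectralBound < S.growthBound := by
  obtain ⟨G, hG, hdec, Y, nY, sY, cY, iY, C, u, tr, C0, h1, h2, h3, h4, h5, h6, h7, h8, h9, h10,
    h11, h12, h13, h14⟩ := base_exists
  obtain ⟨R, hR, S, hS1, hS2, hS3⟩ :=
    Pool.Agent.Helper86.NC.assemble C u tr h9 h10 (fun f hf => by
      obtain ⟨a, ha, hfa⟩ := h11 f hf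
      exact ⟨a, ha, hfa, fun h0 => h12 f hf (by rw [hfa, h0]; simp)⟩) C0 h13 h14
  obtain ⟨H, nH, iH, cH, M, τ, ι, hι, hpos⟩ := Real.realise iY ⟨h1, h2, h3, h4⟩ C h5 R hR
  refine ⟨H, nH, iH, cH, M, τ, _, _, _, inferInstance, ι, S, hι, ?_, hS2, hS3, ?_⟩
  · rw [hpos]; exact hS1
  · refine lt_of_le_of_lt hS2 (lt_of_lt_of_le ?_ hS3)
    exact_mod_cast Real.log_pos (by norm_num : (1 : ℝ) < 2)

end Pool.Agent.Results.MP_25d1d3_an.Disproof
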